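import Pool.Agent.H9.KA.Stmts

/-!
# Windows of times
-/

set_option autoImplicit false

namespace Pool.KA

open Finset Real
open Pool.Agent.H49.Ent Pool.Agent.H32.Dense Pool.STK

namespace Win

/-- Splitting of a time. -/
lemma time_split (J w t : ℕ) (hw : w ≤ J) :
    (t : ℝ) / 2 ^ J = ((t / 2 ^ (J - w) : ℕ) : ℝ) / 2 ^ w +
      ((t % 2 ^ (J - w) : ℕ) : ℝ) / 2 ^ (J - w) * (2 ^ w)⁻¹ := by
  have h1 : (t : ℝ) = (2 : ℝ) ^ (J - w) * ((t / 2 ^ (J - w) : ℕ) : ℝ) +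
      ((t % 2 ^ (J - w) : ℕ) : ℝ) := by
    exact_mod_cast (Nat.div_add_mod t (2 ^ (J - w))).symm
  have h2 : (2 : ℝ) ^ J = 2 ^ (J - w) * 2 ^ w := by
    rw [← pow_add]
    congr 1
    omega
  rw [h1, h2]
  have a : (2 : ℝ) ^ (J - w) ≠ 0 := by positivity
  have b : (2 : ℝ) ^ w ≠ 0 := by positivity
  field_simp

/-- The position in the window, rounded, is the position rounded minus an integer vector. -/
lemma window_fl {m : ℕ} (J w r t : ℕ) (hw : w ≤ J) (u d : Fin m → ℝ) (i : Fin m) :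
    ⌊(2 : ℝ) ^ r * (Int.fract ((2 : ℝ) ^ w * (u i + ((t / 2 ^ (J - w) : ℕ) : ℝ) / 2 ^ w * d i)) +
      ((t % 2 ^ (J - w) : ℕ) : ℝ) / 2 ^ (J - w) * d i)⌋ =
    ⌊(2 : ℝ) ^ (r + w) * (u i + (t : ℝ) / 2 ^ J * d i)⌋ -
      2 ^ r * ⌊(2 : ℝ) ^ w * (u i + ((t / 2 ^ (J - w) : ℕ) : ℝ) / 2 ^ w * d i)⌋ := by
  rw [time_split J w t hw]
  have h : (2 : ℝ) ^ r *
      (Int.fract ((2 : ℝ) ^ w * (u i + ((t / 2 ^ (J - w) : ℕ) : ℝ) / 2 ^ w * d i)) +
        ((t % 2 ^ (J - w) : ℕ) : ℝ) / 2 ^ (J - w) * d i) =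
      (2 : ℝ) ^ (r + w) * (u i + (((t / 2 ^ (J - w) : ℕ) : ℝ) / 2 ^ w +
        ((t % 2 ^ (J - w) : ℕ) : ℝ) / 2 ^ (J - w) * (2 ^ w)⁻¹) * d i) -
      ((2 ^ r * ⌊(2 : ℝ) ^ w * (u i + ((t / 2 ^ (J - w) : ℕ) : ℝ) / 2 ^ w * d i)⌋ : ℤ) : ℝ) := by
    rw [Int.fract]
    push_cast
    rw [pow_add]
    have b : (2 : ℝ) ^ w ≠ 0 := by positivity
    field_simp
    ring
  rw [h, Int.floor_sub_intCast]

variable {m J : ℕ}

/-- The positions of the window family. -/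
lemma win_X (F : Fam m J) (g : ℕ) (hg : g ≤ J) (j : ℕ) (ω : F.Ω) (i : Fin m) :
    (F.win g).X j ω i = F.X (j + g) ω i - 2 ^ j * fl g (F.x1 g ω) i :=
  window_fl J g j (F.T ω) hg (F.u ω) (F.d ω) i

lemma T_split (F : Fam m J) (g : ℕ) (ω : F.Ω) :
    2 ^ (J - g) * F.T1 g ω + F.T ω % 2 ^ (J - g) = F.T ω := Nat.div_add_mod _ _

/-- The time determines its first digits and its last digits. -/
lemma det_T (F : Fam m J) (g : ℕ) {ω ω' : F.Ω} (h : F.T ω = F.T ω') :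
    F.T1 g ω = F.T1 g ω' ∧ F.T ω % 2 ^ (J - g) = F.T ω' % 2 ^ (J - g) := by
  unfold Fam.T1
  rw [h]
  exact ⟨rfl, rfl⟩

lemma T_det (F : Fam m J) (g : ℕ) {ω ω' : F.Ω} (h1 : F.T1 g ω = F.T1 g ω')
    (h2 : F.T ω % 2 ^ (J - g) = F.T ω' % 2 ^ (J - g)) : F.T ω = F.T ω' := by
  rw [← T_split F g ω, ← T_split F g ω', h1, h2]

lemma T1_lt (F : Fam m J) (g : ℕ) (hg : g ≤ J) (ω : F.Ω) : F.T1 g ω < 2 ^ g := by
  unfold Fam.T1
  rw [Nat.div_lt_iff_lt_mul (by positivity), ← pow_add]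
  have e : g + (J - g) = J := Nat.add_sub_cancel' hg
  rw [e]
  exact F.tim ω

/-- The beginning of the window is determined by the line and the first digits of the time. -/
lemma x1_det (F : Fam m J) (g : ℕ) {ω ω' : F.Ω} (hu : F.u ω = F.u ω') (hd : F.d ω = F.d ω')
    (h1 : F.T1 g ω = F.T1 g ω') : F.x1 g ω = F.x1 g ω' := by
  funext i
  unfold Fam.x1
  rw [hu, hd, h1]

end Win

open Win

theorem win_thm : WINStmt := by
  intro m J F g hg
  have hp := F.isLaw.nonneg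
  refine ⟨?_, ?_⟩
  · intro e he
    have c2 : ((J - g : ℕ) : ℝ) = (J : ℝ) - g := by rw [Nat.cast_sub hg]
    unfold Fam.Tm at he ⊢
    rw [c2]
    -- the first digits of the time
    have h1 : CH F.p (F.T1 g) (fun ω => (F.l ω, F.Z ω)) ≤ g * Real.log 2 := by
      have h := CH_le_card hp F.isLaw.sum_one (F.T1 g) (fun ω => (F.l ω, F.Z ω))
        (fun _ => Finset.range (2 ^ g)) (fun ω _ => Finset.mem_range.mpr (T1_lt F g hg ω))
      rw [Ex_const F.isLaw.sum_one, Finset.card_range] at h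
      push_cast at h
      rw [Real.log_pow] at h
      exact h
    have h2 := CH_le_add hp F.T (F.T1 g) (fun ω => (F.l ω, F.Z ω))
    have h3 : CH F.p F.T (fun ω => (F.T1 g ω, (F.l ω, F.Z ω))) ≤
        CH F.p (fun ω => F.T ω % 2 ^ (J - g)) (fun ω => (F.T1 g ω, (F.l ω, F.Z ω))) := by
      refine CH_mono_left hp ?_
      intro ω ω' _ _ h
      simp only [Prod.mk.injEq] at h
      exact T_det F g h.2.1 h.1
    have h4 : CH F.p (fun ω => F.T ω % 2 ^ (J - g)) (fun ω => (F.T1 g ω, (F.l ω, F.Z ω))) ≤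
        CH F.p (fun ω => F.T ω % 2 ^ (J - g)) (fun ω => ((F.win g).l ω, (F.win g).Z ω)) := by
      refine CH_mono_cond hp ?_
      intro ω ω' _ _ h
      simp only [Fam.l, Prod.mk.injEq] at h
      obtain ⟨h1, ⟨hu, hd⟩, hZ⟩ := h
      have hx := x1_det F g hu hd h1
      simp only [Fam.l, Fam.win, Fam.c, Prod.mk.injEq]
      refine ⟨⟨?_, hd⟩, ⟨h1, ?_⟩, hZ⟩
      · rw [hx]
      · rw [hx]
    have h5 : CH F.p (fun ω => F.T ω % 2 ^ (J - g))
        (fun ω => ((F.win g).l ω, (F.win g).Z ω)) =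
        CH (F.win g).p (F.win g).T (fun ω => ((F.win g).l ω, (F.win g).Z ω)) := rfl
    rw [← h5]
    have e0 : ((J : ℝ) - g) * Real.log 2 = J * Real.log 2 - g * Real.log 2 := by ring
    rw [e0]
    linarith
  · intro j hj
    have c2 : ((J - g : ℕ) : ℝ) = (J : ℝ) - g := by rw [Nat.cast_sub hg]
    have h1 : CH (F.win g).p ((F.win g).X j) (F.win g).W =
        CH F.p (F.X (j + g)) (fun ω => (F.T ω, F.c g ω)) := by
      refine CH_congr (p := F.p) hp ?_ ?_ ?_ ?_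
      · intro ω ω' _ _ h
        have e1 : (F.win g).X j ω = (F.win g).X j ω' := (Prod.ext_iff.mp h).1
        have e2 : F.c g ω = F.c g ω' := (Prod.ext_iff.mp (Prod.ext_iff.mp h).2).2
        have e3 : fl g (F.x1 g ω) = fl g (F.x1 g ω') := (Prod.ext_iff.mp (Prod.ext_iff.mp e2).1).2
        funext i
        have e4 := congrFun e1 i
        rw [win_X F g hg, win_X F g hg, congrFun e3 i] at e4
        linarith
      · intro ω ω' _ _ h
        have e1 : F.X (j + g) ω = F.X (j + g) ω' := (Prod.ext_iff.mp h).1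
        have e2 : F.c g ω = F.c g ω' := (Prod.ext_iff.mp (Prod.ext_iff.mp h).2).2
        have e3 : fl g (F.x1 g ω) = fl g (F.x1 g ω') := (Prod.ext_iff.mp (Prod.ext_iff.mp e2).1).2
        funext i
        rw [win_X F g hg, win_X F g hg, congrFun e3 i, congrFun e1 i]
      · intro ω ω' _ _ h
        have e0 : F.T ω % 2 ^ (J - g) = F.T ω' % 2 ^ (J - g) := (Prod.ext_iff.mp h).1
        have e2 : F.c g ω = F.c g ω' := (Prod.ext_iff.mp h).2
        have e3 : F.T1 g ω = F.T1 g ω' := (Prod.ext_iff.mp (Prod.ext_iff.mp e2).1).1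
        exact Prod.ext (T_det F g e3 e0) e2
      · intro ω ω' _ _ h
        have e0 : F.T ω = F.T ω' := (Prod.ext_iff.mp h).1
        have e2 : F.c g ω = F.c g ω' := (Prod.ext_iff.mp h).2
        exact Prod.ext (det_T F g e0).2 e2
    unfold Fam.V
    rw [h1, c2]
    have h2 : CH (F.win g).p ((F.win g).D (J - g)) (F.win g).Z =
        CH F.p (F.D (J - g)) (F.c g) := rfl
    rw [h2]
    have e0 : (m : ℝ) * (((J : ℝ) - g - j) * Real.log 2) =
        m * (((J : ℝ) - (j + g)) * Real.log 2) := by ring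
    rw [e0]

end Pool.KA
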