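import Pool.Agent.H12.KA.WIN

/-!
# Windows of times: the beginning of the window and the time of the sample
-/

set_option autoImplicit false

namespace Pool.KA

open Finset Real
open Pool.Agent.H49.Ent Pool.Agent.H32.Dense Pool.STK

namespace Win

variable {m J : ℕ}

/-- Bayes for conditional entropies. -/
lemma CH_bayes {Ω S T U : Type} [Fintype Ω] {p : Ω → ℝ} (hp : ∀ ω, 0 ≤ p ω) (X : Ω → S)
    (Y : Ω → T) (W : Ω → U) :
    CH p X W - CH p X (fun ω => (Y ω, W ω)) = CH p Y W - CH p Y (fun ω => (X ω, W ω)) := by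
  have h1 := CH_chain hp X Y W
  have h2 := CH_chain hp Y X W
  have h3 : CH p (fun ω => (X ω, Y ω)) W = CH p (fun ω => (Y ω, X ω)) W := by
    refine CH_congr hp ?_ ?_ (fun _ _ _ _ h => h) (fun _ _ _ _ h => h)
    · intro ω ω' _ _ h
      simp only [Prod.mk.injEq] at h ⊢
      exact ⟨h.1.2, h.1.1⟩
    · intro ω ω' _ _ h
      simp only [Prod.mk.injEq] at h ⊢
      exact ⟨h.1.2, h.1.1⟩
  linarith

/-- Change of the condition. -/
lemma CH_change {Ω S T T' U : Type} [Fintype Ω] {p : Ω → ℝ} (hp : ∀ ω, 0 ≤ p ω) (Y : Ω → S)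
    (A : Ω → T) (B : Ω → T') (W : Ω → U) :
    CH p Y (fun ω => (A ω, W ω)) ≤
      CH p Y (fun ω => (B ω, W ω)) + CH p B (fun ω => (A ω, W ω)) := by
  have h1 := CH_le_add hp Y B (fun ω => (A ω, W ω))
  have h2 : CH p Y (fun ω => (B ω, (A ω, W ω))) ≤ CH p Y (fun ω => (B ω, W ω)) := by
    refine CH_mono_cond hp ?_
    intro ω ω' _ _ h
    simp only [Prod.mk.injEq] at h ⊢
    exact ⟨h.1, h.2.2⟩
  linarith

lemma floor_near {a b : ℝ} (h : |a - b| ≤ 1) : |((⌊a⌋ - ⌊b⌋ : ℤ) : ℝ)| ≤ 1 := by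
  have h1 : ⌊a⌋ - ⌊b⌋ < 2 := by
    have : (⌊a⌋ : ℝ) - ⌊b⌋ < 2 := by
      have := Int.floor_le a
      have := Int.lt_floor_add_one b
      rw [abs_le] at h
      linarith
    exact_mod_cast this
  have h2 : -2 < ⌊a⌋ - ⌊b⌋ := by
    have : (-2 : ℝ) < (⌊a⌋ : ℝ) - ⌊b⌋ := by
      have := Int.floor_le b
      have := Int.lt_floor_add_one a
      rw [abs_le] at h
      linarith
    exact_mod_cast this
  have h3 : |(⌊a⌋ - ⌊b⌋ : ℤ)| ≤ 1 := abs_le.mpr ⟨by omega, by omega⟩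
  exact_mod_cast h3

/-- The positions at the beginning of the window and at the time of the sample. -/
lemma near (F : Fam m J) (g : ℕ) (hg : g ≤ J) (ω : F.Ω) (i : Fin m) :
    |((F.X g ω i - fl g (F.x1 g ω) i : ℤ) : ℝ)| ≤ 1 := by
  refine floor_near ?_
  have h1 : F.x ω i - F.x1 g ω i =
      ((F.T ω % 2 ^ (J - g) : ℕ) : ℝ) / 2 ^ (J - g) * (2 ^ g)⁻¹ * F.d ω i := by
    unfold Fam.x Fam.x1 Fam.t Fam.T1
    rw [time_split J g (F.T ω) hg]
    ring
  have h2 : (2 : ℝ) ^ g * F.x ω i - 2 ^ g * F.x1 g ω i =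
      ((F.T ω % 2 ^ (J - g) : ℕ) : ℝ) / 2 ^ (J - g) * F.d ω i := by
    rw [← mul_sub, h1]
    have b : (2 : ℝ) ^ g ≠ 0 := by positivity
    field_simp
  rw [h2, abs_mul]
  have h3 : |((F.T ω % 2 ^ (J - g) : ℕ) : ℝ) / 2 ^ (J - g)| ≤ 1 := by
    rw [abs_of_nonneg (by positivity), div_le_one (by positivity)]
    have : F.T ω % 2 ^ (J - g) < 2 ^ (J - g) := Nat.mod_lt _ (by positivity)
    exact_mod_cast this.le
  calc _ ≤ (1 : ℝ) * 1 := mul_le_mul h3 (F.dir ω i) (abs_nonneg _) zero_le_one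
    _ = 1 := one_mul 1

end Win

open Win

theorem wi2_thm : WI2Stmt := by
  intro m
  refine ⟨m * Real.log 5, by positivity, ?_⟩
  intro J F g hg S Y
  have hp := F.isLaw.nonneg
  set k : F.Ω → Fin m → ℤ := fun ω => fl g (F.x1 g ω) with hk
  have hC : ∀ (A B : F.Ω → Fin m → ℤ) (W : F.Ω → ℕ × F.ζ),
      (∀ ω i, |((A ω i - B ω i : ℤ) : ℝ)| ≤ 1) →
      CH F.p A (fun ω => (B ω, W ω)) ≤ m * Real.log 5 := by
    intro A B W hAB
    have h := CH_le_vec hp F.isLaw.sum_one A (fun ω => (B ω, W ω)) (fun _ => 2)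
      (by
        intro ω ω' _ _ h i
        have e := congrFun (Prod.ext_iff.mp h).1 i
        have h1 := hAB ω i
        have h2 := hAB ω' i
        have e2 : A ω i - A ω' i = (A ω i - B ω i) - (A ω' i - B ω' i) := by
          simp only at e
          rw [e]; ring
        rw [e2]
        push_cast at h1 h2 ⊢
        rw [abs_le] at h1 h2 ⊢
        constructor <;> linarith [h1.1, h1.2, h2.1, h2.2])
    rw [Ex_const F.isLaw.sum_one] at h
    norm_num at h
    exact h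
  have hXk : ∀ ω i, |((F.X g ω i - k ω i : ℤ) : ℝ)| ≤ 1 := fun ω i => near F g hg ω i
  have hkX : ∀ ω i, |((k ω i - F.X g ω i : ℤ) : ℝ)| ≤ 1 := by
    intro ω i
    have h := hXk ω i
    push_cast at h ⊢
    rw [abs_sub_comm]
    exact h
  -- the condition with the beginning of the window
  have e1 : CH F.p Y (fun ω => (F.T ω, F.c g ω)) = CH F.p Y (fun ω => (k ω, F.W ω)) := by
    refine CH_congr hp ?_ ?_ ?_ ?_
    · intro ω ω' _ _ h
      exact (Prod.ext_iff.mp h).1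
    · intro ω ω' _ _ h
      exact (Prod.ext_iff.mp h).1
    · intro ω ω' _ _ h
      simp only [Fam.c, Fam.W, Prod.mk.injEq] at h ⊢
      exact ⟨h.2.1.2, h.1, h.2.2⟩
    · intro ω ω' _ _ h
      simp only [Fam.c, Fam.W, Prod.mk.injEq] at h ⊢
      exact ⟨h.2.1, ⟨(det_T F g h.2.1).1, h.1⟩, h.2.2⟩
  have a1 := CH_change hp Y k (F.X g) F.W
  have a2 := CH_change hp Y (F.X g) k F.W
  have b1 := hC (F.X g) k F.W hXk
  have b2 := hC k (F.X g) F.W hkX
  have first : |CH F.p Y (fun ω => (F.T ω, F.c g ω)) -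
      CH F.p Y (fun ω => (F.X g ω, F.W ω))| ≤ m * Real.log 5 := by
    rw [e1, abs_le]
    constructor <;> linarith
  refine ⟨first, ?_⟩
  intro e he hY
  have h1 : CH F.p (F.T1 g) (fun ω => (F.l ω, F.Z ω)) ≤ g * Real.log 2 := by
    have h := CH_le_card hp F.isLaw.sum_one (F.T1 g) (fun ω => (F.l ω, F.Z ω))
      (fun _ => Finset.range (2 ^ g)) (fun ω _ => Finset.mem_range.mpr (T1_lt F g hg ω))
    rw [Ex_const F.isLaw.sum_one, Finset.card_range] at h
    push_cast at h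
    rw [Real.log_pow] at h
    exact h
  have h2 := CH_le_add hp F.T (F.T1 g) (fun ω => (F.l ω, F.Z ω))
  have h3 : CH F.p F.T (fun ω => (F.T1 g ω, (F.l ω, F.Z ω))) ≤
      CH F.p F.T (fun ω => (Y ω, F.c g ω)) := by
    refine CH_mono_cond hp ?_
    intro ω ω' ho ho' h
    simp only [Fam.l, Prod.mk.injEq] at h
    obtain ⟨hT, ⟨hu, hd⟩, hZ⟩ := h
    have hx := x1_det F g hu hd hT
    refine Prod.ext (hY ω ω' ho ho' (Prod.ext hu hd)) ?_
    simp only [Fam.c, Prod.mk.injEq]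
    exact ⟨⟨hT, by rw [hx]⟩, hZ⟩
  -- the time given the window
  have h4 : CH F.p F.T (F.c g) ≤ ((J : ℝ) - g) * Real.log 2 := by
    have h := CH_le_card hp F.isLaw.sum_one F.T (F.c g)
      (fun c => (Finset.range (2 ^ (J - g))).image (fun r => 2 ^ (J - g) * c.1.1 + r))
      (by
        intro ω _
        rw [Finset.mem_image]
        exact ⟨F.T ω % 2 ^ (J - g), Finset.mem_range.mpr (Nat.mod_lt _ (by positivity)),
          T_split F g ω⟩)
    refine h.trans ?_
    have h5 : ∀ ω, Real.log (((Finset.range (2 ^ (J - g))).image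
        (fun r => 2 ^ (J - g) * (F.c g ω).1.1 + r)).card : ℝ) ≤ ((J : ℝ) - g) * Real.log 2 := by
      intro ω
      have h6 : ((Finset.range (2 ^ (J - g))).image
          (fun r => 2 ^ (J - g) * (F.c g ω).1.1 + r)).card = 2 ^ (J - g) := by
        rw [Finset.card_image_of_injective _ (fun a b h => Nat.add_left_cancel h),
          Finset.card_range]
      rw [h6]
      push_cast
      rw [Real.log_pow, Nat.cast_sub hg]
    refine (Ex_mono hp (g := fun _ => ((J : ℝ) - g) * Real.log 2) fun ω _ => h5 ω).trans ?_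
    rw [Ex_const F.isLaw.sum_one]
  have hb := CH_bayes hp Y F.T (F.c g)
  have hmono : CH F.p Y (fun ω => (F.T ω, F.c g ω)) ≤ CH F.p Y (F.c g) := by
    refine CH_mono_cond hp ?_
    intro ω ω' _ _ h
    exact (Prod.ext_iff.mp h).2
  unfold Fam.Tm at he
  have hI : CH F.p Y (F.c g) - CH F.p Y (fun ω => (F.T ω, F.c g ω)) ≤ e := by
    rw [hb]
    have e0 : ((J : ℝ) - g) * Real.log 2 = J * Real.log 2 - g * Real.log 2 := by ring
    rw [e0] at h4
    linarith
  rw [abs_le] at first ⊢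
  constructor <;> linarith [first.1, first.2]

end Pool.KA
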