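import Pool.Agent.H12.KA.WI2

/-!
# Hiding
-/

set_option autoImplicit false

namespace Pool.KA

open Finset Real
open Pool.Agent.H49.Ent Pool.Agent.H32.Dense Pool.STK

namespace Win

variable {m J : ℕ}

/-- The violation with additional side information. -/
lemma cnd_V (F : Fam m J) {κ : Type} (z : F.Ω → κ) (j : ℕ) :
    F.V j - (F.cnd z).V j = (CH F.p z F.Z - CH F.p z (fun ω => (F.D J ω, F.Z ω))) -
      (CH F.p z F.W - CH F.p z (fun ω => (F.X j ω, F.W ω))) := by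
  have hp := F.isLaw.nonneg
  have h1 := CH_bayes hp (F.D J) z F.Z
  have h2 := CH_bayes hp (F.X j) z F.W
  have h3 : CH (F.cnd z).p ((F.cnd z).X j) (F.cnd z).W = CH F.p (F.X j) (fun ω => (z ω, F.W ω)) := by
    refine CH_congr (p := F.p) hp ?_ ?_ ?_ ?_
    · intro ω ω' _ _ h
      exact (Prod.ext_iff.mp h).1
    · intro ω ω' _ _ h
      exact (Prod.ext_iff.mp h).1
    · intro ω ω' _ _ h
      simp only [Fam.W, Fam.cnd, Prod.mk.injEq] at h ⊢
      exact ⟨h.2.1, h.1, h.2.2⟩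
    · intro ω ω' _ _ h
      simp only [Fam.W, Fam.cnd, Prod.mk.injEq] at h ⊢
      exact ⟨h.2.1, h.1, h.2.2⟩
  have h4 : CH (F.cnd z).p ((F.cnd z).D J) (F.cnd z).Z =
      CH F.p (F.D J) (fun ω => (z ω, F.Z ω)) := rfl
  have h5 : (F.cnd z).V j = CH F.p (F.D J) (fun ω => (z ω, F.Z ω)) -
      CH F.p (F.X j) (fun ω => (z ω, F.W ω)) - m * (((J : ℝ) - j) * Real.log 2) := by
    rw [← h3, ← h4]
    rfl
  rw [h5]
  unfold Fam.V
  linarith

end Win

open Win

theorem hid_thm : HIDStmt := by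
  intro m J w μ lam σ η F κ z hJ hw h1 h2
  have hJ0 : (0 : ℝ) < J := by exact_mod_cast hJ
  have ew := cnd_V F z w
  have eJ := cnd_V F z J
  unfold Fam.G at h1 h2
  rw [← ew]
  have key : μ * ((J : ℝ) - w) / J * (F.V w - (F.cnd z).V w) =
      ((J : ℝ) - w) * (μ * F.V w / J) - ((J : ℝ) - w) * (μ * (F.cnd z).V w / J) := by
    field_simp
  rw [key]
  linarith

end Pool.KA
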