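import Pool.Agent.H9.KA.Stmts

/-!
# The master inequality
-/

set_option autoImplicit false

namespace Pool.KA

open Finset Real
open Pool.Agent.H49.Ent Pool.Agent.H32.Dense Pool.STK

theorem mas_thm : MASStmt := by
  intro m J g w μ lam σ η F F' hgw hwJ hgJ hη h1 h2
  have hJ : (0 : ℝ) < J := by
    have : 0 < J := by omega
    exact_mod_cast this
  have hg : (0 : ℝ) < (J : ℝ) - g := by
    have : (g : ℝ) < J := by exact_mod_cast hgJ
    linarith
  have c1 : ((w - g : ℕ) : ℝ) = (w : ℝ) - g := by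
    rw [Nat.cast_sub hgw]
  have c2 : ((J - g : ℕ) : ℝ) = (J : ℝ) - g := by
    rw [Nat.cast_sub hgJ.le]
  unfold Fam.G at h1 h2
  rw [c1, c2] at h2
  have e1 : (J : ℝ) - g - ((w : ℝ) - g) = J - w := by ring
  rw [e1] at h2
  set V := F.V w
  set VJ := F.V J
  set V' := F'.V (w - g)
  set VJ' := F'.V (J - g)
  have key : μ * ((J : ℝ) - w) / ((J : ℝ) - g) * ((V - V') - g * V / J) =
      ((J : ℝ) - w) * (μ * V / J) - ((J : ℝ) - w) * (μ * V' / ((J : ℝ) - g)) := by
    field_simp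
    ring
  rw [key]
  have hg0 : (0 : ℝ) ≤ g := Nat.cast_nonneg g
  nlinarith [h1, h2, mul_nonneg hη hg0]

end Pool.KA
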