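import Pool.Agent.H59.KA.Stmts
import Pool.Agent.H97.KP.COR

/-!
# Project KA, module QGB: bound for the generator of `Ph` along the channel
-/

set_option autoImplicit false
set_option linter.unusedSectionVars false

open MeasureTheory Set Filter Topology Matrix
open scoped ContDiff

namespace Pool.Agent.H59.KA

open Pool.Agent.H84 hiding cv mn
open Pool.Agent.H84.Sym Pool.Agent.H84.Sym.P2x Pool.Agent.H19.KL
open Pool.Agent.H73.KG Pool.Agent.H20.KH Pool.Agent.H78.KP

section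

variable {E : Type} [NormedAddCommGroup E] [InnerProductSpace ℝ E]
    [FiniteDimensional ℝ E] [MeasurableSpace E] [BorelSpace E]
variable {ι : Type} [Fintype ι] [DecidableEq ι]

/-- quadratic forms of positive semidefinite matrices -/
theorem QGB_quad {W : Matrix ι ι ℝ} (hW : W.PosSemidef) (u : ι → ℝ) :
    0 ≤ ∑ i, ∑ j, W i j * (u i * u j) := by
  have h := hW.dotProduct_mulVec_nonneg u
  rw [star_trivial] at h
  have e : u ⬝ᵥ (W *ᵥ u) = ∑ i, ∑ j, W i j * (u i * u j) := by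
    simp only [dotProduct, mulVec, Finset.mul_sum]
    exact Finset.sum_congr rfl fun i _ => Finset.sum_congr rfl fun j _ => by ring
  rwa [e] at h

/-- if `0 ≤ A ≤ a` then `‖A y‖ ≤ a ‖y‖` -/
theorem QGB_norm {A : Matrix ι ι ℝ} {a : ℝ} (ha : 0 < a) (hA : A.PosSemidef)
    (hle : (a • (1 : Matrix ι ι ℝ) - A).PosSemidef) (y : ι → ℝ) :
    ∑ k, (∑ j, A k j * y j) ^ 2 ≤ a ^ 2 * ∑ j, (y j) ^ 2 := by
  set u : ι → ℝ := A *ᵥ y with hu
  have hAs : ∀ i j, A i j = A j i := fun i j => by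
    have := congrFun (congrFun hA.1 j) i
    simpa using this
  have hsym : ∀ x z : ι → ℝ, x ⬝ᵥ (A *ᵥ z) = z ⬝ᵥ (A *ᵥ x) := by
    intro x z
    simp only [dotProduct, mulVec, Finset.mul_sum]
    rw [Finset.sum_comm]
    exact Finset.sum_congr rfl fun i _ => Finset.sum_congr rfl fun j _ => by
      rw [hAs j i]; ring
  have h1 : ∀ z : ι → ℝ, 0 ≤ z ⬝ᵥ (A *ᵥ z) := fun z => by
    have := hA.dotProduct_mulVec_nonneg z
    rwa [star_trivial] at this
  have h2 : ∀ z : ι → ℝ, z ⬝ᵥ (A *ᵥ z) ≤ a * (z ⬝ᵥ z) := fun z => by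
    have := hle.dotProduct_mulVec_nonneg z
    rw [star_trivial, Matrix.sub_mulVec, dotProduct_sub, Matrix.smul_mulVec, Matrix.one_mulVec,
      dotProduct_smul, smul_eq_mul] at this
    linarith
  have h3 := h1 (y - (1 / a) • u)
  have e3 : (y - (1 / a) • u) ⬝ᵥ (A *ᵥ (y - (1 / a) • u)) =
      y ⬝ᵥ (A *ᵥ y) - 2 * (1 / a) * (u ⬝ᵥ u) + (1 / a) ^ 2 * (u ⬝ᵥ (A *ᵥ u)) := by
    rw [Matrix.mulVec_sub, Matrix.mulVec_smul, sub_dotProduct, dotProduct_sub, dotProduct_sub,
      dotProduct_smul, smul_dotProduct, smul_dotProduct, dotProduct_smul, hsym y u, ← hu]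
    simp only [smul_eq_mul]
    ring
  rw [e3] at h3
  have h4 := h2 y
  have h5 := h2 u
  have h6 : (1 / a) ^ 2 * (u ⬝ᵥ (A *ᵥ u)) ≤ (1 / a) * (u ⬝ᵥ u) := by
    have := mul_le_mul_of_nonneg_left h5 (sq_nonneg (1 / a))
    refine this.trans (le_of_eq ?_)
    field_simp
  have h7 : (1 / a) * (u ⬝ᵥ u) ≤ a * (y ⬝ᵥ y) := by linarith
  have h8 : u ⬝ᵥ u ≤ a ^ 2 * (y ⬝ᵥ y) := by
    have := mul_le_mul_of_nonneg_left h7 ha.le
    have e : a * ((1 / a) * (u ⬝ᵥ u)) = u ⬝ᵥ u := by field_simp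
    rw [e] at this
    linarith
  have e1 : u ⬝ᵥ u = ∑ k, (∑ j, A k j * y j) ^ 2 := by
    simp only [hu, dotProduct, mulVec]
    exact Finset.sum_congr rfl fun i _ => by ring
  have e2 : y ⬝ᵥ y = ∑ j, (y j) ^ 2 := by
    simp only [dotProduct]
    exact Finset.sum_congr rfl fun i _ => by ring
  rw [← e1, ← e2]
  exact h8

/-- the trace of `M M` -/
theorem QGB_tr (M : Matrix ι ι ℝ) : (M * M).trace ≤ ∑ i, ∑ l, (M i l) ^ 2 := by
  have e1 : (M * M).trace = ∑ i, ∑ l, M i l * M l i := by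
    simp only [Matrix.trace, Matrix.diag_apply, Matrix.mul_apply]
  have e2 : ∑ i, ∑ l, (M i l) ^ 2 = ∑ i, ∑ l, (M l i) ^ 2 := Finset.sum_comm
  have h : ∑ i, ∑ l, M i l * M l i ≤ ∑ i, ∑ l, ((M i l) ^ 2 + (M l i) ^ 2) / 2 :=
    Finset.sum_le_sum fun i _ => Finset.sum_le_sum fun l _ => by
      nlinarith [sq_nonneg (M i l - M l i)]
  have e3 : ∑ i, ∑ l, ((M i l) ^ 2 + (M l i) ^ 2) / 2 = ∑ i, ∑ l, (M i l) ^ 2 := by
    simp only [add_div, Finset.sum_add_distrib, ← Finset.sum_div]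
    rw [← e2]
    ring
  rw [e1]
  linarith

/-- `tr (A A B W B)` as a sum of quadratic forms -/
theorem QGB_X {A B W : Matrix ι ι ℝ} (hA : ∀ i j, A i j = A j i) (hB : ∀ i j, B i j = B j i) :
    (A * A * B * W * B).trace = ∑ k, ∑ i, ∑ j, W i j * ((B * A) i k * (B * A) j k) := by
  have e0 : (A * A * B * W * B).trace = ((A * B) * W * (B * A)).trace := by
    have : A * A * B * W * B = A * (A * B * W * B) := by simp only [Matrix.mul_assoc]
    rw [this, Matrix.trace_mul_comm]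
    congr 1
    simp only [Matrix.mul_assoc]
  have e1 : ∀ k i, (A * B) k i = (B * A) i k := by
    intro k i
    simp only [Matrix.mul_apply]
    exact Finset.sum_congr rfl fun j _ => by rw [hA k j, hB j i]; ring
  rw [e0]
  simp only [Matrix.trace, Matrix.diag_apply]
  refine Finset.sum_congr rfl fun k _ => ?_
  rw [Matrix.mul_apply]
  simp only [Matrix.mul_apply (M := A * B) (N := W), Finset.sum_mul]
  rw [Finset.sum_comm]
  refine Finset.sum_congr rfl fun i _ => Finset.sum_congr rfl fun j _ => ?_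
  rw [e1 k i]
  ring

end

theorem qgb_thm (E : Type) [NormedAddCommGroup E] [InnerProductSpace ℝ E]
    [FiniteDimensional ℝ E] [MeasurableSpace E] [BorelSpace E] : QGBStmt E := by
  intro V t hV ι _ _ b Y B v a κ hB hY ha hcov hκ hT
  have ha0 : 0 < a := by linarith
  have hbas := (bas_thm E).2.2.2.2.2.1 V t hV ι b
  have hA := hbas.1
  have hle := hbas.2 a hcov
  set A : Matrix ι ι ℝ := cm b V with hAdef
  have hAs : ∀ i j, A i j = A j i := fun i j => by
    have := congrFun (congrFun hA.1 j) i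
    simpa using this
  have hW : (A + Matrix.diagonal Y).PosSemidef :=
    hA.add (Matrix.PosSemidef.diagonal fun i => (hY i).1)
  set X : ℝ := ∑ k, ∑ i, ∑ j, (A + Matrix.diagonal Y) i j * ((B * A) i k * (B * A) j k) with hX
  have hXtr : (A * A * B * (A + Matrix.diagonal Y) * B).trace = X := QGB_X hAs hB
  have hX0 : 0 ≤ X := Finset.sum_nonneg fun k _ => QGB_quad hW fun i => (B * A) i k
  set NB : ℝ := ∑ i, ∑ j, (B i j) ^ 2 with hNB
  set NV : ℝ := ∑ i, (v i) ^ 2 with hNV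
  have hNB0 : 0 ≤ NB := Finset.sum_nonneg fun i _ => Finset.sum_nonneg fun j _ => sq_nonneg _
  have hNV0 : 0 ≤ NV := Finset.sum_nonneg fun i _ => sq_nonneg _
  -- the third moments against a vector
  have hT3 : ∀ w : ι → ℝ, ∑ k, ∑ i, (∑ j, tm b V k i j * w j) ^ 2 ≤
      a ^ 3 * κ * ∑ j, (w j) ^ 2 := fun w => COR_T3 hV hT b w
  -- second term
  have h2 : ∑ k, (tm b V k * B * tm b V k * B).trace ≤ a ^ 3 * κ * NB := by
    have s1 : ∀ k, (tm b V k * B * tm b V k * B).trace ≤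
        ∑ i, ∑ l, ((tm b V k * B) i l) ^ 2 := by
      intro k
      have e : tm b V k * B * tm b V k * B = (tm b V k * B) * (tm b V k * B) := by
        simp only [Matrix.mul_assoc]
      rw [e]
      exact QGB_tr _
    have s2 : ∑ k, ∑ i, ∑ l, ((tm b V k * B) i l) ^ 2 =
        ∑ l, ∑ k, ∑ i, (∑ j, tm b V k i j * B j l) ^ 2 := by
      simp only [Matrix.mul_apply]
      rw [Finset.sum_comm' (s := Finset.univ) (t := fun _ => Finset.univ)
        (t' := Finset.univ) (s' := fun _ => Finset.univ) (by simp)]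
      rw [Finset.sum_comm]
      have : ∀ k : ι, ∑ i, ∑ l, (∑ j, tm b V k i j * B j l) ^ 2 =
          ∑ l, ∑ i, (∑ j, tm b V k i j * B j l) ^ 2 := fun k => Finset.sum_comm
      simp only [this]
      exact Finset.sum_comm
    have s3 : ∑ l, ∑ k, ∑ i, (∑ j, tm b V k i j * B j l) ^ 2 ≤
        ∑ l, a ^ 3 * κ * ∑ j, (B j l) ^ 2 :=
      Finset.sum_le_sum fun l _ => hT3 fun j => B j l
    have s4 : ∑ l, a ^ 3 * κ * ∑ j, (B j l) ^ 2 = a ^ 3 * κ * NB := by
      rw [← Finset.mul_sum, hNB, Finset.sum_comm]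
    calc ∑ k, (tm b V k * B * tm b V k * B).trace
        ≤ ∑ k, ∑ i, ∑ l, ((tm b V k * B) i l) ^ 2 := Finset.sum_le_sum fun k _ => s1 k
      _ ≤ _ := by rw [s2]; exact s3
      _ = _ := s4
  -- `‖B A‖`
  have h3 : ∑ k, ∑ i, ((B * A) i k) ^ 2 ≤ a ^ 2 * NB := by
    rw [Finset.sum_comm, hNB, Finset.mul_sum]
    refine Finset.sum_le_sum fun i _ => ?_
    have := QGB_norm ha0 hA hle fun j => B i j
    refine le_trans (le_of_eq ?_) this
    refine Finset.sum_congr rfl fun k _ => ?_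
    rw [Matrix.mul_apply]
    congr 1
    exact Finset.sum_congr rfl fun j _ => by rw [hAs j k]; ring
  -- cross term
  have h4 : 2 * (∑ k, ∑ i, (∑ j, tm b V k i j * v j) * (B * A) i k) ≤
      a ^ 3 * NV + κ * (a ^ 2 * NB) := by
    have hv := hT3 v
    rw [← hNV] at hv
    rcases hκ.eq_or_lt with h0 | hpos
    · have z : ∀ k i, (∑ j, tm b V k i j * v j) = 0 := by
        have hs : ∑ k, ∑ i, (∑ j, tm b V k i j * v j) ^ 2 ≤ 0 := by
          refine hv.trans (le_of_eq ?_)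
          rw [← h0]; ring
        have hs0 : ∑ k, ∑ i, (∑ j, tm b V k i j * v j) ^ 2 = 0 :=
          le_antisymm hs (Finset.sum_nonneg fun k _ => Finset.sum_nonneg fun i _ => sq_nonneg _)
        intro k i
        have h1 := (Finset.sum_eq_zero_iff_of_nonneg fun k _ =>
          Finset.sum_nonneg fun i _ => sq_nonneg _).1 hs0 k (Finset.mem_univ k)
        have h2 := (Finset.sum_eq_zero_iff_of_nonneg fun i _ => sq_nonneg _).1 h1 i
          (Finset.mem_univ i)
        exact pow_eq_zero_iff (two_ne_zero) |>.1 h2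
      simp only [z, zero_mul, Finset.sum_const_zero, mul_zero]
      positivity
    · have s1 : 2 * (∑ k, ∑ i, (∑ j, tm b V k i j * v j) * (B * A) i k) ≤
          ∑ k, ∑ i, ((∑ j, tm b V k i j * v j) ^ 2 / κ + κ * ((B * A) i k) ^ 2) := by
        rw [Finset.mul_sum]
        refine Finset.sum_le_sum fun k _ => ?_
        rw [Finset.mul_sum]
        refine Finset.sum_le_sum fun i _ => ?_
        set x := ∑ j, tm b V k i j * v j
        set y := (B * A) i k
        have : 0 ≤ (x - κ * y) ^ 2 / κ := by positivity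
        have e : (x - κ * y) ^ 2 / κ = x ^ 2 / κ + κ * y ^ 2 - 2 * (x * y) := by
          field_simp
          ring
        rw [e] at this
        linarith
      have s2 : ∑ k, ∑ i, ((∑ j, tm b V k i j * v j) ^ 2 / κ + κ * ((B * A) i k) ^ 2) =
          (∑ k, ∑ i, (∑ j, tm b V k i j * v j) ^ 2) / κ + κ * ∑ k, ∑ i, ((B * A) i k) ^ 2 := by
        simp only [Finset.sum_add_distrib, Finset.sum_div, Finset.mul_sum]
      have s3 : (∑ k, ∑ i, (∑ j, tm b V k i j * v j) ^ 2) / κ ≤ a ^ 3 * NV := by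
        rw [div_le_iff₀ hpos]
        linarith
      have s4 := mul_le_mul_of_nonneg_left h3 hκ
      rw [s2] at s1
      linarith
  have h5 : 0 ≤ ∑ i, (∑ j, A i j * v j) ^ 2 := Finset.sum_nonneg fun i _ => sq_nonneg _
  have h6 : κ * (a ^ 2 * NB) ≤ a ^ 3 * κ * NB := by
    have : a ^ 2 ≤ a ^ 3 := by nlinarith [sq_nonneg a]
    have := mul_le_mul_of_nonneg_right this (mul_nonneg hκ hNB0)
    linarith
  have h7 : 0 ≤ a ^ 3 * (3 * NB) := by positivity
  unfold GE
  rw [← hAdef, hXtr, ← hX]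
  have : a ^ 3 * ((2 * κ + 3) * NB + NV) = a ^ 3 * κ * NB + a ^ 3 * κ * NB + a ^ 3 * NV +
      a ^ 3 * (3 * NB) := by ring
  rw [this]
  linarith

end Pool.Agent.H59.KA
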